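import Pool.Agent.A0dd0b.Lower

/-!
# MP_a0dd0b: the affine line cover number of the dodecahedron is 9, not 10

`Pool.Agent.A0dd0b.Basic` contains the definitions (`IsDrawing`, `CoveredBy`, `rho31`,
`dodecahedron`), `Upper` the explicit rational drawing on nine lines, `Winding`, `Planar`, `Count`
and `Lower` the proof that eight lines are not enough. -/

namespace Pool.Agent.Results.MP_a0dd0b_co.DodecahedronNineLines

open Pool.Agent.A0dd0b

/-- The affine line cover number `ρ₃¹` of the dodecahedron graph equals `9`.  Hence it is not `10`
and the conjecture of Q1 (`ρ₃¹(D) = 10` and `ρ₃¹(I) = 15`) is false. -/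
theorem result : rho31 dodecahedron = 9 := rho31_dodecahedron

end Pool.Agent.Results.MP_a0dd0b_co.DodecahedronNineLines
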